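import Pool.Agent.H95.Henon

set_option autoImplicit false
open Pool.Agent.H95.Henon

theorem Pool.Agent.Results.MP_643687_an.No.result :
    (∀ m, Odd m → ∀ p σ u, ¬ DistSol ℝ m p σ u) ∧
      ∃ (m : ℕ) (p σ : ℝ), 2 ≤ m ∧ 1 < p ∧ σ < -2 * m ∧ 0 < 1 - 2 * m - (2 * m + σ) / (p - 1) ∧
        ∀ u, ¬ DistSol ℝ m p σ u :=
  Pool.Agent.H95.Henon.main'
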